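import Pool.Agent.H10.PW4

/-! The palindromic width of free nilpotent groups. -/

namespace Pool.Agent.Results.MP_e99d20_al.Width

/-- The free `r`-step nilpotent group of rank `n`. -/
abbrev N (n r : ℕ) : Type :=
  FreeGroup (Fin n) ⧸ (⊤ : Subgroup (FreeGroup (Fin n))).lowerCentralSeries r

/-- Elements represented by a reduced word equal to its reversal. -/
def IsPal {n r : ℕ} (g : N n r) : Prop :=
  ∃ w : List (Fin n × Bool), FreeGroup.IsReduced w ∧ w.reverse = w ∧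
    g = QuotientGroup.mk (FreeGroup.mk w)

/-- Products of `k` palindromes. -/
def ProdPal {n r : ℕ} (k : ℕ) (g : N n r) : Prop :=
  ∃ l : List (N n r), l.length = k ∧ (∀ p ∈ l, IsPal p) ∧ l.prod = g

/-- Palindromic length. -/
noncomputable def plen {n r : ℕ} (g : N n r) : ℕ∞ := ⨅ (k : ℕ) (_ : ProdPal k g), (k : ℕ∞)

/-- Palindromic width. -/
noncomputable def pw (n r : ℕ) : ℕ∞ := ⨆ g : N n r, plen g

open Pool.Agent.H10.PW

theorem ctx (m r : ℕ) : ∃ θ : N (m + 1) r →* N (m + 1) r,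
    Ctx (fun i => QuotientGroup.mk (FreeGroup.of i)) θ {g | IsPal g} := by
  refine ⟨QuotientGroup.map _ _ (th (m + 1)) fun g hg => Subgroup.lowerCentralSeries_mono r le_top
    ((Subgroup.map_lowerCentralSeries _ _ r).le ⟨g, hg, rfl⟩), ?_, fun i => ?_,
    ⟨[], by simp, rfl, rfl⟩, fun i => ⟨[(i, true)], by simp, rfl, rfl⟩, ?_⟩
  · exact map_gen (QuotientGroup.mk' _) (QuotientGroup.mk'_surjective _)
      (FreeGroup.closure_range_of _) (by rintro _ ⟨_, ⟨i, rfl⟩, rfl⟩; exact ⟨i, rfl⟩)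
  · rw [QuotientGroup.map_mk]; simp [th]
  · rintro v _ ⟨w, -, h, rfl⟩
    obtain ⟨v, rfl⟩ := QuotientGroup.mk_surjective v
    obtain ⟨v, rfl⟩ := Quot.exists_rep v
    obtain ⟨h1, h2⟩ := pal_red (v ++ w ++ v.reverse) (by simp [h])
    refine ⟨_, h1, h2, ?_⟩
    rw [FreeGroup.reduce.self, ← FreeGroup.mul_mk, ← FreeGroup.mul_mk, mk_rev,
      QuotientGroup.map_mk]
    rfl

theorem fac {n r k j : ℕ} (hk : k ≤ 2 * j) (g : FreeGroup (Fin n))
    (h : ProdPal k (QuotientGroup.mk g : N n r)) : Fac r (2 * j) g := by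
  obtain ⟨l, rfl, h1, h2⟩ := h
  have key : ∀ l : List (N n r), (∀ p ∈ l, IsPal p) → ∃ ws : List (List (Fin n × Bool)),
      ws.length = l.length ∧ (∀ w ∈ ws, w.reverse = w) ∧
        QuotientGroup.mk (ws.map FreeGroup.mk).prod = l.prod := by
    intro l
    induction l with
    | nil => exact fun _ => ⟨[], rfl, by simp, rfl⟩
    | cons a l ih =>
      intro h
      obtain ⟨w, -, h3, rfl⟩ := h a List.mem_cons_self
      obtain ⟨ws, h4, h5, h6⟩ := ih fun p hp => h p (List.mem_cons_of_mem _ hp)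
      refine ⟨w :: ws, by simp [h4], by simpa [h3] using h5, ?_⟩
      rw [List.map_cons, List.prod_cons, List.prod_cons, QuotientGroup.mk_mul, h6]
  obtain ⟨ws, h3, h4, h5⟩ := key l h1
  refine fac_of g (ws ++ List.replicate (2 * j - l.length) []) (fun w hw => ?_)
    (by simp; omega) (QuotientGroup.eq.1 ?_)
  · rcases List.mem_append.1 hw with hw | hw
    · exact h4 w hw
    · rw [List.eq_of_mem_replicate hw]; rfl
  · rw [← h2, ← h5]
    simp [← FreeGroup.one_eq_mk]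

theorem pw_eq {n r K : ℕ} (h1 : ∀ g : N n r, ProdPal K g) (g : N n r)
    (h2 : ∀ k, k < K → ¬ ProdPal k g) : pw n r = K :=
  le_antisymm (iSup_le fun g => iInf₂_le K (h1 g)) (le_iSup_of_le g (le_iInf₂ fun k hk =>
    Nat.cast_le.2 (not_lt.1 fun h => h2 k h hk)))

theorem result (n r : ℕ) :
    (2 ≤ n → 2 ≤ r → r ≤ 3 → pw n r = ((2 * n - 1 : ℕ) : ℕ∞)) ∧
    (3 ≤ n → 4 ≤ r → pw n r = ((2 * n + 1 : ℕ) : ℕ∞)) := by
  refine ⟨fun hn h2 h3 => ?_, fun hn h4 => ?_⟩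
  · obtain ⟨m, rfl⟩ : ∃ m, n = m + 1 := ⟨n - 1, by omega⟩
    obtain ⟨θ, h⟩ := ctx m r
    refine pw_eq (fun g => h.up3 (lcs_mono (lcs_quot r) h3) (by omega) g)
      (QuotientGroup.mk (g1 _ 2)) fun k hk hp => ?_
    exact low2 h2 (by omega) (fac (j := m) (by omega) _ hp)
  · obtain ⟨m, rfl⟩ : ∃ m, n = m + 1 := ⟨n - 1, by omega⟩
    obtain ⟨θ, h⟩ := ctx m r
    refine pw_eq (fun g => h.up4 r (lcs_mono (lcs_quot r) (by omega)) g)
      (QuotientGroup.mk (g1 _ 4 * g2 _)) fun k hk hp => ?_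
    exact low4 h4 hn (fac (by omega) _ hp)

end Pool.Agent.Results.MP_e99d20_al.Width
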